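import Pool.Agent.Run7.h614.NM.Digits

/-! # Normality is decided by one number for every multiple

Let `b ≥ 2`. A real number `x` (for instance `π`, with `b = 10`) is normal in base `b` if and only if
for every `m ≥ 1` half of the numbers `m b ^ n x` have distance less than `1 / 4` to the nearest
integer; and if and only if for every `m ≥ 1` two thirds of them have distance less than `1 / 3`. More
generally, for every `q ≥ 3` the values at `1 / q, 2 / q, … < 1 / 2` of the distribution functions of
these distances decide normality.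

In terms of digits: `x` is normal in base `2` if and only if in every multiple `m x` half of the digits
are different from the next digit (digit changes have frequency `1 / 2`); for the frequencies of the
digits themselves this is false, all multiples of the Thue–Morse number are simply normal in base `2`
(helper776). `x` is normal in base `3` if and only if the digit `1` has frequency `1 / 3` in every
multiple `m x`. `x` is normal in base `10` if and only if in every multiple `m x` one fifth of the
digits are `4` or `5`, and two fifths are `2`, `3`, `6` or `7`.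

Proof. Let `χ` be an odd Dirichlet character modulo `q`. The step function
`E(y) = ∑_k χ(k) cos (2 π k y) / k` is even and constant on the intervals `[d / q, (d + 1) / q)`, and
`cos (2 π y) = ∑_j μ(j) χ(j) E(j y) / j` converges uniformly, by Davenport's theorem (helper776's
library). So the hypothesis gives that the means of `cos (2 π m b ^ n x)` tend to zero for all `m ≥ 1`.
Nothing is known about the sines; for general sequences in place of `b ^ n x` the cosines do not
suffice. But for the orbits `b ^ n x` van der Corput's inequality bounds the means of the exponentials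
`exp (2 π i k b ^ n x)` by the means of their autocorrelations, which are real and involve only the
cosines of `2 π k (b ^ h - b ^ h') b ^ n x`.
-/

set_option autoImplicit false

open Filter Topology

namespace Pool.Agent.Results.MP_57632f_nt.NearestIntegerDistances

/-- the `n`-th digit after the point of `x` in base `b` -/
noncomputable def digit (b : ℕ) (x : ℝ) (n : ℕ) : ℤ := ⌊x * (b : ℝ) ^ n⌋ % b

open Classical in
/-- the proportion of the `n < N` with the property `P` tends to `c` -/
def HasFreq (P : ℕ → Prop) (c : ℝ) : Prop :=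
  Tendsto (fun N : ℕ => (((Finset.range N).filter P).card : ℝ) / (N : ℝ)) atTop (𝓝 c)

/-- `x` is normal in base `b`: every word `w` of `k ≥ 1` digits stands with frequency `b ^ (-k)` at the
places `n + 1, …, n + k` -/
def Normal (b : ℕ) (x : ℝ) : Prop := ∀ k : ℕ, 0 < k → ∀ w : Fin k → Fin b,
  HasFreq (fun n => ∀ j : Fin k, digit b x (n + 1 + j) = ((w j : ℕ) : ℤ)) (1 / (b : ℝ) ^ k)

/-- the distance of `y` to the nearest integer -/
noncomputable def dist (y : ℝ) : ℝ := |y - round y|

/-- the Thue–Morse number: its binary digits after the point are `t_0, t_1, …`, where `t_k` is the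
parity of the sum of the binary digits of `k` -/
noncomputable def thueMorse : ℝ :=
  ∑' k : ℕ, (((Nat.digits 2 k).sum % 2 : ℕ) : ℝ) / 2 ^ (k + 1)

/-- for `z = (z_n)`: the sum over the `q` intervals `[d / q, (d + 1) / q)` of the distance between
`2 N / q` and the number of the `n < N` for which the fractional part of `z_n` is in the interval plus
the number of those for which the fractional part of `-z_n` is in it -/
noncomputable def Dev (q N : ℕ) (z : ℕ → ℝ) : ℝ :=
  ∑ d ∈ Finset.range q, |(((Finset.range N).filter fun n : ℕ =>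
      (d : ℝ) / q ≤ Int.fract (z n) ∧ Int.fract (z n) < ((d : ℝ) + 1) / q).card : ℝ) +
    (((Finset.range N).filter fun n : ℕ =>
      (d : ℝ) / q ≤ Int.fract (-z n) ∧ Int.fract (-z n) < ((d : ℝ) + 1) / q).card : ℝ) - 2 * N / q|

lemma normal_eq (b : ℕ) (x : ℝ) : Normal b x ↔ Pool.Agent.Run7.h614.NM.Normal b x := by
  classical
  unfold Normal Pool.Agent.Run7.h614.NM.Normal HasFreq digit Pool.Agent.Run7.h614.NM.digit
  refine forall_congr' fun k => forall_congr' fun _ => forall_congr' fun w => ?_
  refine iff_of_eq ?_
  congr 1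
  funext N
  congr 2
  congr 1
  ext n
  simp only [Finset.mem_filter]

lemma hasFreq_inst (P : ℕ → Prop) [DecidablePred P] (c : ℝ) :
    HasFreq P c ↔
      Tendsto (fun N : ℕ => (((Finset.range N).filter P).card : ℝ) / (N : ℝ)) atTop (𝓝 c) := by
  unfold HasFreq
  have e : ∀ N : ℕ, (@Finset.filter ℕ P (fun a => Classical.propDecidable _) (Finset.range N)) =
      (Finset.range N).filter P := by
    intro N
    ext n
    simp only [Finset.mem_filter]
  simp only [e]

lemma hasFreq_near (q : ℕ) (y : ℕ → ℝ) (s : ℕ) (c : ℝ) :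
    HasFreq (fun n => dist (y n) < (s : ℝ) / q) c ↔
      Tendsto (fun N : ℕ => (Pool.Agent.Run7.h614.NM.near q N y s : ℝ) / N) atTop (𝓝 c) := by
  classical
  rw [hasFreq_inst]
  exact Iff.rfl

lemma dev_eq {q : ℕ} (hq : 0 < q) (N : ℕ) (z : ℕ → ℝ) :
    Dev q N z = Pool.Agent.Run7.h614.NM.sdev q N z := by
  unfold Dev Pool.Agent.Run7.h614.NM.sdev
  simp only [Pool.Agent.Run7.h776.MS.cnt_eq hq]

/-- (1) Let `b ≥ 2` and `q ≥ 3`. A real number `x` is normal in base `b` if and only if for all `m ≥ 1`
and all `s` with `1 ≤ s < q / 2` the distance of `m b ^ n x` to the nearest integer is less than `s / q`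
with frequency `2 s / q`. For `q = 4` (`q = 3`) this is one condition for each `m`: the distance is
less than `1 / 4` with frequency `1 / 2` (less than `1 / 3` with frequency `2 / 3`).

(2) `x` is normal in base `2` if and only if for all `m ≥ 1` the digits of `m x` change with frequency
`1 / 2`. It is not sufficient that the digits of all `m x` are `1` with frequency `1 / 2`.

(3) `x` is normal in base `3` if and only if for all `m ≥ 1` the digit `1` has frequency `1 / 3` in
`m x`.

(4) `x` is normal in base `10` if and only if for all `m ≥ 1` one fifth of the digits of `m x` are `4`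
or `5`, and two fifths are `2`, `3`, `6` or `7`.

(5) The finite form: an upper bound for the exponential sums of `b ^ n x` in terms of the counts of
(1) for finitely many multiples of `x`, with a saving of any power of `log M`. -/
theorem result :
    (∀ b q : ℕ, 2 ≤ b → 3 ≤ q → ∀ x : ℝ, Normal b x ↔ ∀ m s : ℕ, 1 ≤ m → 1 ≤ s → 2 * s < q →
      HasFreq (fun n => dist (m * ((b : ℝ) ^ n * x)) < (s : ℝ) / q) (2 * s / q)) ∧
    ((∀ x : ℝ, Normal 2 x ↔ ∀ m : ℕ, 1 ≤ m →
      HasFreq (fun n => digit 2 (m * x) (n + 1) ≠ digit 2 (m * x) (n + 2)) (1 / 2)) ∧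
      (¬ Normal 2 thueMorse ∧ ∀ m : ℕ, 1 ≤ m →
        HasFreq (fun n => digit 2 (m * thueMorse) (n + 1) = 1) (1 / 2))) ∧
    (∀ x : ℝ, Normal 3 x ↔ ∀ m : ℕ, 1 ≤ m →
      HasFreq (fun n => digit 3 (m * x) (n + 1) = 1) (1 / 3)) ∧
    (∀ x : ℝ, Normal 10 x ↔ ∀ m : ℕ, 1 ≤ m →
      HasFreq (fun n => digit 10 (m * x) (n + 1) = 4 ∨ digit 10 (m * x) (n + 1) = 5) (1 / 5) ∧
      HasFreq (fun n => (digit 10 (m * x) (n + 1) = 2 ∨ digit 10 (m * x) (n + 1) = 3) ∨
        (digit 10 (m * x) (n + 1) = 6 ∨ digit 10 (m * x) (n + 1) = 7)) (2 / 5)) ∧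
    (∀ b q A : ℕ, 3 ≤ q → ∃ C : ℝ, ∀ (x : ℝ) (N H M k : ℕ), 2 ≤ M → 1 ≤ k →
      H * ‖∑ n ∈ Finset.range N, Complex.exp (2 * Real.pi * Complex.I *
          (((k : ℝ) * ((b : ℝ) ^ n * x) : ℝ) : ℂ))‖ ≤ (H : ℝ) ^ 2 +
        √(N * ∑ h ∈ Finset.range H, ∑ h' ∈ Finset.range H, if h = h' then (N : ℝ) else
          C * N / Real.log M ^ A + q * ∑ j ∈ Finset.Icc 1 M, 1 / (j : ℝ) *
            Dev q N (fun n => j * ((k * ((b : ℝ) ^ h - (b : ℝ) ^ h')) * ((b : ℝ) ^ n * x))))) := by
  classical
  refine ⟨fun b q hb hq x => ?_, ⟨fun x => ?_, ?_⟩, fun x => ?_, fun x => ?_, fun b q A hq => ?_⟩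
  · rw [normal_eq, Pool.Agent.Run7.h614.NM.normal_iff_ud hb,
      Pool.Agent.Run7.h614.NM.ud_iff_near hb hq]
    constructor
    · intro h m s hm hs1 hs
      exact (hasFreq_near _ _ _ _).2 (h m hm s hs1 hs)
    · intro h m hm s hs1 hs
      exact (hasFreq_near _ _ _ _).1 (h m s hm hs1 hs)
  · rw [normal_eq]
    simp only [hasFreq_inst]
    exact Pool.Agent.Run7.h614.NM.binary x
  · have e : thueMorse = Pool.Agent.Run7.h776.MS.TM.x 0 := by
      unfold thueMorse Pool.Agent.Run7.h776.MS.TM.x Pool.Agent.Run7.h776.MS.TM.t
      simp only [zero_add]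
    rw [e]
    constructor
    · rw [normal_eq, Pool.Agent.Run7.h614.NM.normal_iff_ud (by norm_num)]
      intro h
      exact Pool.Agent.Run7.h776.MS.tm_not_normal (Pool.Agent.N915.WT.isNormal_of_ud h)
    · intro m hm
      have h1 := (Pool.Agent.Run7.h776.MS.wordsUniform_iff (by norm_num) 1 _).1
        (Pool.Agent.Run7.h776.MS.tm_multiples m hm) 1 (by norm_num)
      rw [show ((2 ^ 1 : ℕ) : ℝ) = 2 by norm_num] at h1
      unfold HasFreq
      refine h1.congr fun N => ?_
      congr 2
      rw [pow_one, Pool.Agent.Run7.h776.MS.cnt_eq (by norm_num)]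
      congr 1
      ext n
      simp only [Finset.mem_filter, and_congr_right_iff]
      intro _
      have h2 := Pool.Agent.Run7.h614.NM.digit_floor (b := 2) (by norm_num)
        (m * Pool.Agent.Run7.h776.MS.TM.x 0) n
      unfold Pool.Agent.Run7.h614.NM.digit at h2
      unfold digit
      rw [h2, Int.floor_eq_iff]
      push_cast
      rw [div_le_iff₀ (by norm_num), lt_div_iff₀ (by norm_num)]
  · rw [normal_eq]
    simp only [hasFreq_inst]
    exact Pool.Agent.Run7.h614.NM.ternary x
  · rw [normal_eq]
    simp only [hasFreq_inst]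
    exact Pool.Agent.Run7.h614.NM.decimal x
  · obtain ⟨C, -, hC⟩ := Pool.Agent.Run7.h614.NM.finite_form b hq A
    refine ⟨C, fun x N H M k hM hk => ?_⟩
    have h := hC x N H M k hM hk
    simp only [dev_eq (by omega : 0 < q)]
    exact h

end Pool.Agent.Results.MP_57632f_nt.NearestIntegerDistances
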