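import Pool.Agent.Run7.h526.ZR.Bridge

/-!
# Normality is decided by the exponential rate of the short range pair correlation

Let `P_k(x; N)` be the number of the pairs `(n, j)`, `n < N`, `1 ≤ j ≤ b ^ k`, such that the `k` digits of `x`
after the `n`-th one and after the `(n + j)`-th one are equal. If `x` is normal in base `b`, then
`P_k(x; N) / N` tends to `1`, for every `k`. If `x` is not normal, then there is a `c > 0` such that for
*all* large `k` its upper limit is at least `b ^ (c k)`; if a word of length `m` is off by more than `τ`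
infinitely often, one can take `c = τ ^ 2 / (64 m log b)`. So `x` is normal iff the pair correlations
`P_k(x; N) / N` do not grow exponentially with `k`. Since equal blocks at distance `j` make
`(b ^ j - 1) b ^ n x` a near-integer, a number `x` is also normal in base `b` iff no integer multiple
`q b ^ n x`, `q ≠ 0`, is exponentially more often within `b ^ (-k)` of an integer than it should be.

Proof. There are at most `b ^ ((1 - 2 c) k)` blocks of length `k` in which the frequency of the given word is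
off by more than `τ / 2`, and they stand at a proportion of at least `τ / 4` of the first `N` places, for
infinitely many `N`. The inequality of Cauchy and Schwarz in windows of length `b ^ k` gives many pairs of
equal blocks. The converse for the near-integers is the theorem of Wall.
-/

set_option autoImplicit false

open Filter Topology

namespace Pool.Agent.Results.MP_57632f_nt.PairCorrelationGap

/-- `A_N(x, w)`: the number of the `1 ≤ i ≤ N` at which the word `w` stands -/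
noncomputable def A {b m : ℕ} (x : ℝ) (w : Fin m → Fin b) (N : ℕ) : ℕ :=
  ((Finset.range N).filter fun i : ℕ => ∀ j : Fin m,
    ⌊x * (b : ℝ) ^ (i + 1 + (j : ℕ))⌋ % (b : ℤ) = (((w j : ℕ)) : ℤ)).card

/-- `x` is normal in base `b` -/
def Normal (b : ℕ) (x : ℝ) : Prop := ∀ m : ℕ, 0 < m → ∀ w : Fin m → Fin b,
  Tendsto (fun N : ℕ => (A x w N : ℝ) / (N : ℝ)) atTop (𝓝 (1 / (b : ℝ) ^ m))

/-- the number of the pairs `(n, j)`, `n < N`, `1 ≤ j ≤ b ^ k`, such that the `k` digits after the `n`-th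
one and after the `(n + j)`-th one are equal -/
noncomputable def pairs (b : ℕ) (x : ℝ) (k N : ℕ) : ℕ :=
  ∑ j ∈ Finset.Icc 1 (b ^ k), ((Finset.range N).filter fun n : ℕ => ∀ t < k,
    ⌊x * (b : ℝ) ^ (n + 1 + t)⌋ % (b : ℤ) = ⌊x * (b : ℝ) ^ (n + j + 1 + t)⌋ % (b : ℤ)).card

/-- the number of the `n < N` such that the distance of `q b ^ n x` to the nearest integer is less than
`b ^ (-k)` -/
noncomputable def near (b k : ℕ) (x : ℝ) (q : ℤ) (N : ℕ) : ℕ :=
  ((Finset.range N).filter fun n : ℕ =>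
    |q * (b : ℝ) ^ n * x - round (q * (b : ℝ) ^ n * x)| < 1 / (b : ℝ) ^ k).card

/-- **(1)** `x` is normal in base `b` iff `P_k(x; N) / N` tends to `1` for all `k`. **(2)** This holds iff for
all `ε > 0` there are arbitrarily large `k` such that `P_k(x; N) ≤ b ^ (ε k) N` for all large `N`. **(3)** If
the frequency of a word of length `m` is off by more than `τ` infinitely often, then for all
`k ≥ k0(b, m, τ)` one has `P_k(x; N) ≥ b ^ (c k) N` for infinitely many `N`, `c = τ ^ 2 / (64 m log b)`, and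
there is a `1 ≤ j ≤ b ^ k` such that for infinitely many `N` at least `b ^ (-(1 - c) k) N` of the numbers
`(b ^ j - 1) b ^ n x`, `n < N`, are within `b ^ (-k)` of an integer. **(4)** `x` is normal in base `b` iff for
all `ε > 0` there are arbitrarily large `k` such that for all integers `q ≠ 0` at most
`b ^ (-(1 - ε) k) N` of the numbers `q b ^ n x`, `n < N`, are within `b ^ (-k)` of an integer, for all large
`N`. (For `b = 10` and `x = π` these are equivalent forms of Q1.) -/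
theorem result :
    (∀ (b : ℕ) (x : ℝ), 2 ≤ b →
      (Normal b x ↔ ∀ k : ℕ, Tendsto (fun N : ℕ => (pairs b x k N : ℝ) / N) atTop (𝓝 1))) ∧
    (∀ (b : ℕ) (x : ℝ), 2 ≤ b →
      (Normal b x ↔ ∀ ε : ℝ, 0 < ε → ∀ K : ℕ, ∃ k ≥ K, ∀ᶠ N : ℕ in atTop,
        (pairs b x k N : ℝ) ≤ (b : ℝ) ^ (ε * k) * N)) ∧
    (∀ b m : ℕ, 2 ≤ b → 1 ≤ m → ∀ τ : ℝ, 0 < τ → τ ≤ 1 →
      ∃ k0 : ℕ, ∀ (x : ℝ) (w : Fin m → Fin b),
        (∃ᶠ N : ℕ in atTop, τ * N < |(A x w N : ℝ) - N / (b : ℝ) ^ m|) →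
        ∀ k ≥ k0, (∃ᶠ N : ℕ in atTop,
          (b : ℝ) ^ (τ ^ 2 / (64 * m * Real.log b) * k) * N ≤ pairs b x k N) ∧
          ∃ j : ℕ, 1 ≤ j ∧ j ≤ b ^ k ∧ ∃ᶠ N : ℕ in atTop,
            (b : ℝ) ^ (-((1 - τ ^ 2 / (64 * m * Real.log b)) * k)) * N ≤
              near b k x ((b : ℤ) ^ j - 1) N) ∧
    (∀ (b : ℕ) (x : ℝ), 2 ≤ b →
      (Normal b x ↔ ∀ ε : ℝ, 0 < ε → ∀ K : ℕ, ∃ k ≥ K, ∀ q : ℤ, q ≠ 0 → ∀ᶠ N : ℕ in atTop,
        (near b k x q N : ℝ) ≤ (b : ℝ) ^ (-((1 - ε) * k)) * N)) := by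
  have h2 : ∀ (b : ℕ) (x : ℝ), 2 ≤ b →
      (∀ k : ℕ, Tendsto (fun N : ℕ => (pairs b x k N : ℝ) / N) atTop (𝓝 1)) →
      ∀ ε : ℝ, 0 < ε → ∀ K : ℕ, ∃ k ≥ K, ∀ᶠ N : ℕ in atTop,
        (pairs b x k N : ℝ) ≤ (b : ℝ) ^ (ε * k) * N := by
    intro b x hb h ε hε K
    refine ⟨K + 1, by omega, ?_⟩
    have hb1 : (1 : ℝ) < b := by exact_mod_cast (by omega : 1 < b)
    have h3 : (1 : ℝ) < (b : ℝ) ^ (ε * ((K + 1 : ℕ) : ℝ)) :=
      Real.one_lt_rpow hb1 (by positivity)
    filter_upwards [(h (K + 1)).eventually (gt_mem_nhds h3), eventually_gt_atTop 0] with N h4 h5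
    have hN : (0 : ℝ) < N := by exact_mod_cast h5
    rw [div_lt_iff₀ hN] at h4
    exact h4.le
  refine ⟨fun b x hb => ⟨fun h k => Pool.Agent.Run7.h526.ZR.pairs_normal hb h k, fun h =>
    Pool.Agent.Run7.h526.ZR.pairs_crit hb x (h2 b x hb h)⟩,
    fun b x hb => ⟨fun h => h2 b x hb fun k => Pool.Agent.Run7.h526.ZR.pairs_normal hb h k,
      fun h => Pool.Agent.Run7.h526.ZR.pairs_crit hb x h⟩,
    fun b m hb hm τ hτ hτ1 => ?_,
    fun b x hb => Pool.Agent.Run7.h526.ZR.near_crit hb x⟩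
  obtain ⟨k1, hk1⟩ := Pool.Agent.Run7.h526.ZR.pairs_gap hb hm hτ hτ1
  obtain ⟨k2, hk2⟩ := Pool.Agent.Run7.h526.ZR.near_gap' hb hm hτ hτ1
  exact ⟨max k1 k2, fun x w hw k hk => ⟨hk1 x w hw k ((le_max_left _ _).trans hk),
    hk2 x w hw k ((le_max_right _ _).trans hk)⟩⟩

end Pool.Agent.Results.MP_57632f_nt.PairCorrelationGap
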