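import Pool.Agent.Run7.h526.ZR.Bridge

/-!
# The digits of π return early with positive frequency, or π is normal

Consider the places `n` for which the `k` digits of `x` after the `n`-th one stand again at most
`b ^ ((1 - ε) k)` places later. If `x` is normal in base `b`, these places have an upper density of at
most `2 b ^ (-ε k)`. If `x` is not normal, there is a `c > 0` such that for `ε = c` and *all* large `k`
they have an upper density of at least `c`. So between exponentially small and bounded from below there
is nothing, and `π` is normal in base `10` iff for every `ε > 0` there are arbitrarily large `k` such that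
all but a proportion of at most `ε` of the blocks of `k` digits of `π` do not return within
`10 ^ ((1 - ε) k)` places. If the frequency of a word of length `m` is off by more than `τ` infinitely
often, one can take `c = τ ^ 2 / (64 m log b)` in the exponent and `τ / 8` for the density.

Proof. By a bound of Chernoff type there are at most `b ^ ((1 - 2 c) k)` blocks of length `k` in which the
frequency of the given word is off by more than `τ / 2`, and they stand at a proportion of at least
`τ / 4` of the first `N` places, for infinitely many `N`. In each window of length `b ^ ((1 - c) k)` each of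
them has at most one occurrence which does not return within the window. This is a form of the theorem
of Ornstein and Weiss on return times for individual sequences. Conversely, the frequency of the return
after exactly `j ≥ 1` places is exactly `b ^ (-k)` for a normal number.
-/

set_option autoImplicit false

open Filter Topology

namespace Pool.Agent.Results.MP_57632f_nt.ReturnTimeGap

/-- `A_N(x, w)`: the number of the `1 ≤ i ≤ N` at which the word `w` stands -/
noncomputable def A {b m : ℕ} (x : ℝ) (w : Fin m → Fin b) (N : ℕ) : ℕ :=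
  ((Finset.range N).filter fun i : ℕ => ∀ j : Fin m,
    ⌊x * (b : ℝ) ^ (i + 1 + (j : ℕ))⌋ % (b : ℤ) = (((w j : ℕ)) : ℤ)).card

/-- `x` is normal in base `b` -/
def Normal (b : ℕ) (x : ℝ) : Prop := ∀ m : ℕ, 0 < m → ∀ w : Fin m → Fin b,
  Tendsto (fun N : ℕ => (A x w N : ℝ) / (N : ℝ)) atTop (𝓝 (1 / (b : ℝ) ^ m))

/-- the number of the `n < N` such that the `k` digits after the `n`-th one stand again at most `L`
places later -/
noncomputable def returns (b : ℕ) (x : ℝ) (k : ℕ) (L : ℝ) (N : ℕ) : ℕ := by
  classical
  exact ((Finset.range N).filter fun n : ℕ => ∃ j : ℕ, 1 ≤ j ∧ (j : ℝ) ≤ L ∧ ∀ t < k,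
    ⌊x * (b : ℝ) ^ (n + 1 + t)⌋ % (b : ℤ) = ⌊x * (b : ℝ) ^ (n + j + 1 + t)⌋ % (b : ℤ)).card

/-- **(1)** If `x` is normal in base `b`, at most `2 b ^ (-ε k) N` of the first `N` blocks of length `k` return
within `b ^ ((1 - ε) k)` places, for all large `N`. **(2)** If the frequency of a word of length `m` is off
by more than `τ` infinitely often, then for all `k ≥ k0(b, m, τ)` and infinitely many `N` at least
`τ N / 8` of them return within `b ^ ((1 - c) k)` places, `c = τ ^ 2 / (64 m log b)`. **(3)** `x` is normal iff
for all `ε > 0` there are arbitrarily large `k` such that at most `ε N` of them return within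
`b ^ ((1 - ε) k)` places, for all large `N`. **(4)** So either `π` is normal in base `10`, or there is a
`c > 0` such that for all large `k` the places whose block of `k` digits returns within `10 ^ ((1 - c) k)`
places have an upper density of at least `c`. -/
theorem result :
    (∀ (b : ℕ) (x : ℝ), 2 ≤ b → Normal b x → ∀ ε : ℝ, 0 < ε → ∀ k : ℕ, ∀ᶠ N : ℕ in atTop,
      (returns b x k ((b : ℝ) ^ ((1 - ε) * k)) N : ℝ) ≤ 2 * (b : ℝ) ^ (-(ε * k)) * N) ∧
    (∀ b m : ℕ, 2 ≤ b → 1 ≤ m → ∀ τ : ℝ, 0 < τ → τ ≤ 1 →
      ∃ k0 : ℕ, ∀ (x : ℝ) (w : Fin m → Fin b),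
        (∃ᶠ N : ℕ in atTop, τ * N < |(A x w N : ℝ) - N / (b : ℝ) ^ m|) →
        ∀ k ≥ k0, ∃ᶠ N : ℕ in atTop, τ / 8 * N ≤
          returns b x k ((b : ℝ) ^ ((1 - τ ^ 2 / (64 * m * Real.log b)) * k)) N) ∧
    (∀ (b : ℕ) (x : ℝ), 2 ≤ b →
      (Normal b x ↔ ∀ ε : ℝ, 0 < ε → ∀ K : ℕ, ∃ k ≥ K, ∀ᶠ N : ℕ in atTop,
        (returns b x k ((b : ℝ) ^ ((1 - ε) * k)) N : ℝ) ≤ ε * N)) ∧
    (Normal 10 Real.pi ∨ ∃ c : ℝ, 0 < c ∧ ∃ k0 : ℕ, ∀ k ≥ k0, ∃ᶠ N : ℕ in atTop,
      c * N ≤ returns 10 Real.pi k ((10 : ℝ) ^ ((1 - c) * k)) N) := by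
  refine ⟨fun b x hb h ε hε k => Pool.Agent.Run7.h526.ZR.soon1_normal hb h hε k,
    fun b m hb hm τ hτ hτ1 => Pool.Agent.Run7.h526.ZR.soon1_gap hb hm hτ hτ1,
    fun b x hb => Pool.Agent.Run7.h526.ZR.soon1_crit hb x, ?_⟩
  by_cases h : Normal 10 Real.pi
  · exact Or.inl h
  · have h1 := Pool.Agent.Run7.h526.ZR.soon1_not (b := 10) (by norm_num) h
    push_cast at h1
    exact Or.inr h1

end Pool.Agent.Results.MP_57632f_nt.ReturnTimeGap
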