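import Pool.Agent.Run7.h274.Meas
import Pool.Agent.H326R2.Pi.Top

/-!
# The words in the bounded multiples of `π`

Mahler (1973) and Berend and Boshernitzan (1994) proved that for every irrational number `x` every
word of length `l` occurs infinitely often in `m x` for some `m < 2 b ^ (l + 1)`. For `π` we say where
and for how many `m`: by the bound `|π - p / q| ≥ q ^ (-6.05)` there is a place `k` between `N` and
`6.05 N + 5.05 l + C` at which `b ^ k π` has no good approximation with a denominator less than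
`4 b ^ l`, and at such a place the blocks of length `l` of the multiples `m π`, `m ≤ M`, have the right
frequencies up to a constant factor. Blocks of length `l n` give almost all `m`.
-/

set_option autoImplicit false

namespace Pool.Agent.Results.MP_57632f_nt.WordsInBoundedMultiplesPi

open Finset Filter

/-- the word of length `l` with value `W` (its digits are those of `W < b ^ l` in base `b`, with
leading zeros) stands in the expansion of `y` right behind the `k`-th digit, i.e. the fractional part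
of `b ^ k y` lies in `[W / b ^ l, (W + 1) / b ^ l)` -/
def Stands (b l W : ℕ) (y : ℝ) (k : ℕ) : Prop := ⌊(b : ℝ) ^ (k + l) * y⌋ % ((b : ℤ) ^ l) = (W : ℤ)

open Classical in
/-- the number of `k < N` such that the word of length `l` with value `W` stands in the expansion of
`y` right behind the `k`-th digit -/
noncomputable def occ (b l W : ℕ) (y : ℝ) (N : ℕ) : ℕ := #{k ∈ range N | Stands b l W y k}

lemma occ_eq (b l W : ℕ) (y : ℝ) (N : ℕ) :
    occ b l W y N = Pool.Agent.Run7.h274.WM.occ b l W y N := by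
  unfold occ Pool.Agent.Run7.h274.WM.occ Stands
  congr

/-- small denominators -/
theorem small_den (x : ℝ) (hx : Irrational x) (n : ℕ) :
    ∃ c : ℝ, 0 < c ∧ ∀ q : ℕ, 1 ≤ q → q < n → ∀ p : ℤ, c ≤ |x - p / q| := by
  induction n with
  | zero => exact ⟨1, one_pos, fun q _ h => absurd h (Nat.not_lt_zero q)⟩
  | succ n ih =>
    obtain ⟨c, hc, h⟩ := ih
    rcases Nat.eq_zero_or_pos n with hn | hn
    · exact ⟨1, one_pos, fun q h1 h2 => by omega⟩
    · have hnR : (0 : ℝ) < n := by exact_mod_cast hn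
      have hirr : Irrational ((n : ℝ) * x) := hx.natCast_mul (by omega)
      have hpos : 0 < |(n : ℝ) * x - round ((n : ℝ) * x)| := by
        rw [abs_pos, sub_ne_zero]
        exact hirr.ne_int _
      refine ⟨min c (|(n : ℝ) * x - round ((n : ℝ) * x)| / n), lt_min hc (by positivity),
        fun q h1 h2 p => ?_⟩
      rcases Nat.lt_succ_iff_lt_or_eq.1 h2 with h3 | h3
      · exact (min_le_left _ _).trans (h q h1 h3 p)
      · rw [h3]
        refine (min_le_right _ _).trans ?_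
        rw [div_le_iff₀ hnR]
        have e : |x - p / n| * n = |(n : ℝ) * x - p| := by
          rw [← abs_of_pos hnR, ← abs_mul, abs_of_pos hnR]
          congr 1
          field_simp
        rw [e]
        exact round_le _ _

theorem pi_measure : ∃ c : ℝ, 0 < c ∧ ∀ q : ℕ, 1 ≤ q → ∀ p : ℤ,
    c * (q : ℝ) ^ (-(6.05 : ℝ)) ≤ |Real.pi - p / q| := by
  obtain ⟨q0, hq0⟩ := Pool.Agent.H326R2.Pi.main
  obtain ⟨c, hc, hsm⟩ := small_den Real.pi irrational_pi q0
  refine ⟨min c 1, lt_min hc one_pos, fun q hq p => ?_⟩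
  have hqR : (1 : ℝ) ≤ q := by exact_mod_cast hq
  have hq1 : (q : ℝ) ^ (-(6.05 : ℝ)) ≤ 1 := Real.rpow_le_one_of_one_le_of_nonpos hqR (by norm_num)
  have hq2 : 0 < (q : ℝ) ^ (-(6.05 : ℝ)) := Real.rpow_pos_of_pos (by linarith) _
  rcases lt_or_ge q q0 with h | h
  · have h1 := hsm q hq h p
    have h2 : min c 1 * (q : ℝ) ^ (-(6.05 : ℝ)) ≤ c * 1 :=
      mul_le_mul (min_le_left _ _) hq1 hq2.le hc.le
    linarith
  · have h1 := hq0 q h p
    have h2 : min c 1 * (q : ℝ) ^ (-(6.05 : ℝ)) ≤ 1 * (q : ℝ) ^ (-(6.05 : ℝ)) :=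
      mul_le_mul_of_nonneg_right (min_le_right _ _) hq2.le
    linarith

/-- There is a constant `C` such that for all bases `b ≥ 2` (for instance `b = 10`), all `l ≥ 1` and
all `N`:

(1) for every `M ≥ 4 (b + 1) b ^ l` there is a place `k` with `N ≤ k ≤ 6.05 N + 5.05 l + C` such that
for every word `W` of length `l` the number of `m ≤ M` for which `W` stands in `m π` right behind the
`k`-th digit is between `M / (8 b ^ l)` and `4 M / b ^ l`;

(2) for all `n ≥ 1`, `M ≥ 4 (b + 1) b ^ (l n)` and for all but at most `4 b ^ l (1 - b ^ (-l)) ^ n M` of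
the `m ≤ M` every word of length `l` stands in `m π` right behind the `k`-th digit for some `k` with
`N ≤ k ≤ 6.05 (N + l n) + C`.

(3) For all `b ≥ 2` and `l ≥ 1` there are `c > 0` and `N₀` such that for all `M ≥ 4 (b + 1) b ^ l` and
`N ≥ N₀` every word of length `l` occurs at least `c log N` times among the first `N` digits of `m π`
for at least `M / (16 b ^ l)` of the `m ≤ M`.

(4) For all `b ≥ 2`, `l ≥ 1` and `δ > 0` there are `c > 0`, `M₀` and `N₀` such that for all `M ≥ M₀` and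
`N ≥ N₀`, for all but at most `δ M` of the `m ≤ M`, every word of length `l` occurs at least `c log N`
times among the first `N` digits of `m π`. -/
theorem result :
    (∃ C : ℝ, ∀ b l N : ℕ, 2 ≤ b → 1 ≤ l →
      (∀ M : ℕ, 4 * (b + 1) * b ^ l ≤ M → ∃ k : ℕ, N ≤ k ∧ (k : ℝ) ≤ 6.05 * N + 5.05 * l + C ∧
        ∀ W < b ^ l,
          (M : ℝ) / (8 * b ^ l) ≤ ({m : ℕ | 1 ≤ m ∧ m ≤ M ∧ Stands b l W (m * Real.pi) k}.ncard : ℝ) ∧
          ({m : ℕ | 1 ≤ m ∧ m ≤ M ∧ Stands b l W (m * Real.pi) k}.ncard : ℝ) ≤ 4 * M / b ^ l) ∧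
      (∀ n M : ℕ, 1 ≤ n → 4 * (b + 1) * b ^ (l * n) ≤ M →
        ({m : ℕ | 1 ≤ m ∧ m ≤ M ∧ ∃ W < b ^ l, ∀ k : ℕ, N ≤ k →
          (k : ℝ) ≤ 6.05 * (N + l * n) + C → ¬ Stands b l W (m * Real.pi) k}.ncard : ℝ) ≤
            4 * (b : ℝ) ^ l * (1 - 1 / (b : ℝ) ^ l) ^ n * M)) ∧
    (∀ b l : ℕ, 2 ≤ b → 1 ≤ l → ∃ c : ℝ, 0 < c ∧ ∃ N₀ : ℕ, ∀ M N : ℕ, 4 * (b + 1) * b ^ l ≤ M →
      N₀ ≤ N → ∀ W < b ^ l, (M : ℝ) / (16 * b ^ l) ≤
        ({m : ℕ | 1 ≤ m ∧ m ≤ M ∧ c * Real.log N ≤ occ b l W (m * Real.pi) N}.ncard : ℝ)) ∧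
    (∀ (b l : ℕ) (δ : ℝ), 2 ≤ b → 1 ≤ l → 0 < δ → ∃ c : ℝ, 0 < c ∧ ∃ M₀ N₀ : ℕ, ∀ M N : ℕ, M₀ ≤ M →
      N₀ ≤ N → ({m : ℕ | 1 ≤ m ∧ m ≤ M ∧ ∃ W < b ^ l,
        (occ b l W (m * Real.pi) N : ℝ) < c * Real.log N}.ncard : ℝ) ≤ δ * M) := by
  classical
  obtain ⟨c, hc, hpi⟩ := pi_measure
  have hset : ∀ (M : ℕ) (P : ℕ → Prop),
      {m : ℕ | 1 ≤ m ∧ m ≤ M ∧ P m}.ncard = ((Icc 1 M).filter P).card := by
    intro M P
    rw [← Set.ncard_coe_finset]
    congr 1
    ext m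
    simp only [Set.mem_ofPred_eq, coe_filter, mem_Icc]
    tauto
  refine ⟨?_, ?_, ?_⟩
  · obtain ⟨C, hC0, hC⟩ := Pool.Agent.Run7.h274.WM.good_window (by norm_num) hc hpi
    refine ⟨C, fun b l N hb hl => ⟨fun M hM => ?_, fun n M hn hM => ?_⟩⟩
    · obtain ⟨k, h1, h2, h3⟩ := hC b l M N hb hl hM
      have hbl : (0 : ℝ) < (b : ℝ) ^ l := by positivity
      have hbl1 : 1 ≤ b ^ l := Nat.one_le_pow _ _ (by omega)
      have hM0 : 1 ≤ M := by nlinarith
      refine ⟨k, h1, by norm_num at h2 ⊢; linarith, fun W hW => ?_⟩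
      obtain ⟨h4, h5⟩ := Pool.Agent.Run7.h274.WM.good_both hb hM0 Real.pi k h3 W hW
      rw [hset]
      have e : ((Icc 1 M).filter (fun m : ℕ => Stands b l W (m * Real.pi) k)).card =
          ((Icc 1 M).filter (fun m : ℕ =>
            ⌊(b : ℝ) ^ (k + l) * ((m : ℝ) * Real.pi)⌋ % ((b : ℤ) ^ l) = (W : ℤ))).card := by
        unfold Stands
        congr
      rw [e]
      constructor
      · rw [div_le_iff₀ (by positivity), mul_comm]
        exact_mod_cast h4
      · rw [le_div_iff₀ hbl, mul_comm]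
        exact_mod_cast h5
    · have hln : 1 ≤ l * n := Nat.mul_pos hl hn
      obtain ⟨k, h1, h2, h3⟩ := hC b (l * n) M N hb hln hM
      have hbl : (0 : ℝ) < (b : ℝ) ^ l := by positivity
      have hbl1 : 1 ≤ b ^ l := Nat.one_le_pow _ _ (by omega)
      have hM0 : 1 ≤ M := by
        have : 1 ≤ b ^ (l * n) := Nat.one_le_pow _ _ (by omega)
        nlinarith
      have h4 := Pool.Agent.Run7.h274.WM.good_all hb hl hM0 Real.pi k h3
      rw [hset]
      have hsub : (Icc 1 M).filter (fun m : ℕ => ∃ W < b ^ l, ∀ k : ℕ, N ≤ k →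
          (k : ℝ) ≤ 6.05 * (N + l * n) + C → ¬ Stands b l W (m * Real.pi) k) ⊆
          (Icc 1 M).filter (fun m : ℕ => ∃ W < b ^ l, ∀ i < l * n,
            ⌊(b : ℝ) ^ (k + i + l) * ((m : ℝ) * Real.pi)⌋ % ((b : ℤ) ^ l) ≠ (W : ℤ)) := by
        intro m hm
        rw [mem_filter] at hm ⊢
        obtain ⟨hm1, W, hW, hno⟩ := hm
        refine ⟨hm1, W, hW, fun i hi => hno (k + i) (by omega) ?_⟩
        have hiR : (i : ℝ) ≤ l * n := by exact_mod_cast hi.le
        push_cast at h2 ⊢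
        norm_num at h2 ⊢
        linarith
      have h5 := card_le_card hsub
      set T := ((Icc 1 M).filter (fun m : ℕ => ∃ W < b ^ l, ∀ i < l * n,
            ⌊(b : ℝ) ^ (k + i + l) * ((m : ℝ) * Real.pi)⌋ % ((b : ℤ) ^ l) ≠ (W : ℤ))).card
      have h6 : ((b : ℝ) ^ l) ^ n * (T : ℝ) ≤ 4 * (b : ℝ) ^ l * ((b : ℝ) ^ l - 1) ^ n * M := by
        have h7 : (((b ^ l) ^ n * T : ℕ) : ℝ) ≤ ((4 * b ^ l * (b ^ l - 1) ^ n * M : ℕ) : ℝ) := by
          exact_mod_cast h4
        push_cast [Nat.cast_sub hbl1] at h7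
        exact h7
      have h8 : (1 - 1 / (b : ℝ) ^ l) ^ n = ((b : ℝ) ^ l - 1) ^ n / ((b : ℝ) ^ l) ^ n := by
        rw [← div_pow]; congr 1; field_simp
      have hbn : (0 : ℝ) < ((b : ℝ) ^ l) ^ n := by positivity
      have h9 : (T : ℝ) ≤ 4 * (b : ℝ) ^ l * (1 - 1 / (b : ℝ) ^ l) ^ n * M := by
        rw [h8]
        have e : 4 * (b : ℝ) ^ l * (((b : ℝ) ^ l - 1) ^ n / ((b : ℝ) ^ l) ^ n) * M =
            (4 * (b : ℝ) ^ l * ((b : ℝ) ^ l - 1) ^ n * M) / ((b : ℝ) ^ l) ^ n := by ring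
        rw [e, le_div_iff₀ hbn, mul_comm]
        exact h6
      exact (by exact_mod_cast h5 : _ ≤ (T : ℝ)).trans h9
  · intro b l hb hl
    obtain ⟨c', hc', N₀, h⟩ := Pool.Agent.Run7.h274.WM.many_meas (by norm_num) hc hpi hb hl
    refine ⟨c', hc', N₀, fun M N hM hN W hW => ?_⟩
    have h1 := h M hM N hN W hW
    rw [hset, div_le_iff₀ (by positivity), mul_comm]
    simp only [occ_eq]
    exact_mod_cast h1
  · intro b l δ hb hl hδ
    obtain ⟨c', hc', M₀, N₀, h⟩ := Pool.Agent.Run7.h274.WM.most_meas (by norm_num) hc hpi hb hl hδ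
    refine ⟨c', hc', M₀, N₀, fun M N hM hN => ?_⟩
    have h1 := h M hM N hN
    rw [hset]
    simp only [occ_eq]
    exact h1

end Pool.Agent.Results.MP_57632f_nt.WordsInBoundedMultiplesPi
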